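import Pool.Agent.H31.WP

namespace Pool.Agent.Results.MP_f8a8cb_gt.Main

open Pool.Agent.H31.WP

universe u v

theorem result {H : Type u} [Group H] [TopologicalSpace H] [IsTopologicalGroup H] [T2Space H]
    [LocallyCompactSpace H] (G : Subgroup H) (U : Set G) (hU : IsOpen U) (h1 : 1 ∈ U)
    (h : WeaklyPseudocompact.{u, v} (closure U)) :
    ∃ V : Set G, IsOpen V ∧ 1 ∈ V ∧ Pseudocompact (closure V) :=
  main hU h1 h

end Pool.Agent.Results.MP_f8a8cb_gt.Main
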